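import Mathlib
import Pool.Agent.H.MP_1e3651_al.A

namespace Pool.Agent.Results.MP_1e3651_al.Factoring

open Matrix

/-- `3 × 3` matrices over the Laurent series field -/
abbrev M := Matrix (Fin 3) (Fin 3) (LaurentSeries ℂ)

/-- commutator -/
noncomputable def br (a b : M) : M := a * b - b * a

/-- the loop algebra: skew-symmetric matrices -/
noncomputable def loop : Submodule ℂ M where
  carrier := {a | aᵀ = -a}
  add_mem' := fun {a b} ha hb => by
    simp only [Set.mem_ofPred_eq, transpose_add] at *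
    rw [ha, hb, neg_add]
  zero_mem' := by simp
  smul_mem' := fun c a ha => by
    simp only [Set.mem_ofPred_eq, transpose_smul] at *
    rw [ha, smul_neg]

/-- the Taylor series in the loop algebra -/
noncomputable def taylor : Submodule ℂ M where
  carrier := {a | a ∈ loop ∧ ∀ i j, ∀ n < 0, (a i j).coeff n = 0}
  add_mem' := fun {a b} ha hb =>
    ⟨add_mem ha.1 hb.1, fun i j n h => by simp [ha.2 i j n h, hb.2 i j n h]⟩
  zero_mem' := ⟨zero_mem _, by simp⟩
  smul_mem' := fun c a ha => ⟨loop.smul_mem c ha.1, fun i j n h => by simp [ha.2 i j n h]⟩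

/-- the basis of `so₃` -/
def e : Fin 3 → Matrix (Fin 3) (Fin 3) ℂ :=
  ![single 0 1 1 - single 1 0 1, single 0 2 1 - single 2 0 1, single 1 2 1 - single 2 1 1]

/-- the Lie subalgebra generated by a family -/
noncomputable def gen (E : Fin 3 → M) : Submodule ℂ M :=
  sInf {S | (∀ i, E i ∈ S) ∧ ∀ a ∈ S, ∀ b ∈ S, br a b ∈ S}

/-- the relations (R) -/
def Rel (E : Fin 3 → M) : Prop :=
  ∃ A B C D : Matrix (Fin 3) (Fin 3) ℂ, ∀ r : Fin 3,
    ![br (E 0) (br (E 1) (E 2)), br (E 2) (br (E 0) (E 1)), br (E 1) (br (E 2) (E 0))] r =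
      ∑ s, A r s • ![br (E 2) (E 0), br (E 0) (E 1), br (E 1) (E 2)] s +
        ∑ s, B r s • ![E 1, E 2, E 0] s ∧
    ![br (E 2) (br (E 1) (E 2)) + br (E 0) (br (E 0) (E 1)),
      br (E 0) (br (E 2) (E 0)) + br (E 1) (br (E 1) (E 2)),
      br (E 1) (br (E 0) (E 1)) + br (E 2) (br (E 2) (E 0))] r =
      ∑ s, C r s • ![br (E 2) (E 0), br (E 0) (E 1), br (E 1) (E 2)] s +
        ∑ s, D r s • ![E 1, E 2, E 0] s

open Pool.Agent.H.MP_1e3651_al

instance i1 : IsScalarTower ℂ (LaurentSeries ℂ) (LaurentSeries ℂ) :=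
  ⟨fun c f g => by simp only [← HahnSeries.C_mul_eq_smul, smul_eq_mul, mul_assoc]⟩

instance i2 : SMulCommClass ℂ (LaurentSeries ℂ) (LaurentSeries ℂ) :=
  ⟨fun c f g => by simp only [← HahnSeries.C_mul_eq_smul, smul_eq_mul, mul_left_comm]⟩

theorem br_loop (a b : M) (ha : a ∈ loop) (hb : b ∈ loop) : bk a b ∈ loop := by
  have ha' : aᵀ = -a := ha
  have hb' : bᵀ = -b := hb
  change (a * b - b * a)ᵀ = _
  rw [transpose_sub, transpose_mul, transpose_mul, ha', hb', bk]
  exact neg_br a b

def Good (k : ℕ) (a : M) (c : Matrix (Fin 3) (Fin 3) ℂ) : Prop :=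
  ∃ N : Matrix (Fin 3) (Fin 3) (PowerSeries ℂ),
    a = (HahnSeries.single (-(k : ℤ)) (1 : ℂ) : LaurentSeries ℂ) •
      (HahnSeries.ofPowerSeries ℤ ℂ).mapMatrix N ∧
    (PowerSeries.constantCoeff (R := ℂ)).mapMatrix N = c

theorem good_iff (k : ℕ) (a : M) (c : Matrix (Fin 3) (Fin 3) ℂ) :
    Good k a c ↔ ∀ i j, (∀ n < -(k : ℤ), (a i j).coeff n = 0) ∧ (a i j).coeff (-k) = c i j := by
  have key : ∀ (g : PowerSeries ℂ) (n : ℤ), ((HahnSeries.single (-(k : ℤ)) (1 : ℂ) :
      LaurentSeries ℂ) * HahnSeries.ofPowerSeries ℤ ℂ g).coeff n =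
      if n + k < 0 then 0 else PowerSeries.coeff (n + k).natAbs g := by
    intro g n
    have := HahnSeries.coeff_single_mul_add (r := (1 : ℂ)) (x := HahnSeries.ofPowerSeries ℤ ℂ g)
      (a := n + k) (b := -k)
    rw [add_neg_cancel_right, one_mul, PowerSeries.coeff_coe] at this
    exact this
  constructor
  · rintro ⟨N, rfl, rfl⟩ i j
    simp only [Matrix.smul_apply, smul_eq_mul, RingHom.mapMatrix_apply, Matrix.map_apply, key]
    exact ⟨fun n hn => if_pos (by omega), by simp⟩
  · intro h
    refine ⟨fun i j => PowerSeries.mk fun n => (a i j).coeff (n - k), ?_, ?_⟩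
    · ext i j n
      simp only [Matrix.smul_apply, smul_eq_mul, RingHom.mapMatrix_apply, Matrix.map_apply, key]
      split_ifs with hn
      · exact (h i j).1 n (by omega)
      · rw [PowerSeries.coeff_mk]
        congr 1
        omega
    · ext i j
      simpa using (h i j).2

theorem good_br {k l : ℕ} {a b : M} {c d : Matrix (Fin 3) (Fin 3) ℂ} (ha : Good k a c)
    (hb : Good l b d) : Good (k + l) (-bk a b) (d * c - c * d) := by
  obtain ⟨N, rfl, rfl⟩ := ha
  obtain ⟨N', rfl, rfl⟩ := hb
  refine ⟨N' * N - N * N', ?_, by simp only [map_sub, map_mul]⟩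
  have : (HahnSeries.single (-((k + l : ℕ) : ℤ)) (1 : ℂ) : LaurentSeries ℂ) =
      HahnSeries.single (-(k : ℤ)) 1 * HahnSeries.single (-(l : ℤ)) 1 := by
    rw [HahnSeries.single_mul_single, one_mul, Nat.cast_add, neg_add]
  rw [this]
  simp only [map_sub, map_mul]
  exact smul_br _ _ _ _

theorem e_br : ∀ p : Fin 3, e (p + 2) * e (p + 1) - e (p + 1) * e (p + 2) = e p := by
  intro p
  fin_cases p <;> ext i j <;> fin_cases i <;> fin_cases j <;>
    simp [e, Matrix.mul_apply, single_apply]

theorem result (E : Fin 3 → M)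
    (hE : ∀ i, E i - (e i).map (HahnSeries.single (-1 : ℤ)) ∈ taylor) (hR : Rel E) :
    taylor ⊓ gen E = ⊥ ∧ taylor ⊔ gen E = loop := by
  have eskew : ∀ p i j, e p j i = -e p i j := by
    intro p i j
    fin_cases p <;> fin_cases i <;> fin_cases j <;> simp [e]
  have El : ∀ p, E p ∈ loop := fun p => by
    have h : (e p).map (HahnSeries.single (-1 : ℤ)) ∈ loop := by
      ext i j n
      simp [eskew p i j]
    simpa using add_mem (hE p).1 h
  have Eg : ∀ p, Good 1 (E p) (e p) := fun p => (good_iff ..).2 fun i j => by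
    have h := (hE p).2 i j
    simp only [Matrix.sub_apply, Matrix.map_apply, HahnSeries.coeff_sub, sub_eq_zero] at h
    refine ⟨fun n hn => ?_, ?_⟩
    · rw [h n (by omega), HahnSeries.coeff_single_of_ne (by omega)]
    · rw [h _ (by omega)]
      simp
  have Xl : ∀ k p, X E k p ∈ loop := by
    intro k
    induction k with
    | zero => exact El
    | succ k ih => exact fun p => neg_mem (br_loop _ _ (El _) (ih _))
  have Xg : ∀ k p, Good (k + 1) (X E k p) (e p) := by
    intro k
    induction k with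
    | zero => exact Eg
    | succ k ih =>
      intro p
      have := good_br (Eg (p + 1)) (ih (p + 2))
      rwa [e_br, add_comm 1] at this
  simp only [good_iff] at Xg
  have K1 : ∀ (A B : Fin 3 → ℂ), ∑ s, A s • ![br (E 2) (E 0), br (E 0) (E 1), br (E 1) (E 2)] s +
      ∑ s, B s • ![E 1, E 2, E 0] s ∈ W E 1 := by
    intro A B
    refine add_mem (sum_mem fun s _ => Submodule.smul_mem _ _ ?_)
      (sum_mem fun s _ => Submodule.smul_mem _ _ ?_)
    · fin_cases s
      · exact neg_mem_iff.1 (X_mem E (k := 1) le_rfl 1)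
      · exact neg_mem_iff.1 (X_mem E (k := 1) le_rfl 2)
      · exact neg_mem_iff.1 (X_mem E (k := 1) le_rfl 0)
    · fin_cases s
      · exact X_mem E (k := 0) zero_le_one 1
      · exact X_mem E (k := 0) zero_le_one 2
      · exact X_mem E (k := 0) zero_le_one 0
  obtain ⟨A, B, C, D, hR⟩ := hR
  have hP := allP E (by
    intro p
    fin_cases p
    · exact Set.mem_of_eq_of_mem (hR 0).1 (K1 _ _)
    · exact Set.mem_of_eq_of_mem (hR 2).1 (K1 _ _)
    · exact Set.mem_of_eq_of_mem (hR 1).1 (K1 _ _)) (by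
    intro p
    fin_cases p
    · exact Set.mem_of_eq_of_mem (hR 1).2 (K1 _ _)
    · exact Set.mem_of_eq_of_mem (hR 2).2 (K1 _ _)
    · exact Set.mem_of_eq_of_mem (hR 0).2 (K1 _ _))
  have hG : gen E = ⨆ n, W E n := by
    apply le_antisymm
    · exact sInf_le ⟨fun i => Submodule.mem_iSup_of_mem 0 (X_mem E (k := 0) le_rfl i),
        fun a ha b hb => closed E hP a b ha hb⟩
    · refine iSup_le fun n => le_sInf fun S hS => Submodule.span_le.2 ?_
      rintro _ ⟨k, -, p, rfl⟩
      induction k generalizing p with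
      | zero => exact hS.1 p
      | succ k ih => exact neg_mem (hS.2 _ (hS.1 _) _ (ih _))
  have Vlow : ∀ n, ∀ a ∈ V E n, ∀ i j, ∀ l < -(n : ℤ), (a i j).coeff l = 0 := by
    intro n a ha i j l hl
    induction ha using Submodule.span_induction with
    | mem a ha =>
      obtain ⟨k, hk, p, rfl⟩ := ha
      exact (Xg k p i j).1 l (by push_cast; omega)
    | zero => simp
    | add a b _ _ ha hb => simp [ha, hb]
    | smul c a _ ha => simp [ha]
  have top : ∀ n (c : Fin 3 → ℂ) i j, ((∑ p, c p • X E n p) i j).coeff (-((n + 1 : ℕ) : ℤ)) =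
      ∑ p, c p * e p i j := by
    intro n c i j
    simp only [Fin.sum_univ_three, Matrix.add_apply, Matrix.smul_apply, HahnSeries.coeff_add,
      HahnSeries.coeff_smul, smul_eq_mul, (Xg n _ i j).2]
  have disj : ∀ n, ∀ a ∈ V E n, a ∈ taylor → a = 0 := by
    intro n
    induction n with
    | zero => intro a ha _; simpa [V] using ha
    | succ n ih =>
      intro a ha ht
      obtain ⟨c, hc⟩ := Vsucc E n a ha
      have h : ∀ i j, ∑ p, c p * e p i j = 0 := fun i j => by
        have := Vlow n _ hc i j (-((n + 1 : ℕ) : ℤ)) (by push_cast; omega)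
        rw [Matrix.sub_apply, HahnSeries.coeff_sub, top, ht.2 i j _ (by push_cast; omega)] at this
        simpa using this
      have h0 := h 0 1
      have h1 := h 0 2
      have h2 := h 1 2
      simp [Fin.sum_univ_three, e] at h0 h1 h2
      refine ih a ?_ ht
      simpa [Fin.sum_univ_three, h0, h1, h2] using hc
  have span : ∀ n : ℕ, ∀ a ∈ loop, (∀ i j, ∀ l < -(n : ℤ), (a i j).coeff l = 0) →
      a ∈ taylor ⊔ ⨆ n, W E n := by
    intro n
    induction n with
    | zero => exact fun a ha h => Submodule.mem_sup_left ⟨ha, by simpa using h⟩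
    | succ n ih =>
      intro a ha h
      let c : Fin 3 → ℂ := ![(a 0 1).coeff (-((n + 1 : ℕ) : ℤ)), (a 0 2).coeff (-((n + 1 : ℕ) : ℤ)),
        (a 1 2).coeff (-((n + 1 : ℕ) : ℤ))]
      have hm : ∑ p, c p • X E n p ∈ W E n :=
        sum_mem fun p _ => Submodule.smul_mem _ _ (X_mem E le_rfl p)
      have hl : ∑ p, c p • X E n p ∈ loop := sum_mem fun p _ => Submodule.smul_mem _ _ (Xl n p)
      have sk : ∀ i j l, (a j i).coeff l = -(a i j).coeff l := fun i j l => by
        have : a j i = -a i j := congrFun (congrFun ha i) j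
        rw [this]; simp
      have dg : ∀ i l, (a i i).coeff l = 0 := fun i l => by
        have := sk i i l
        linear_combination (1 / 2 : ℂ) * this
      have := ih (a - ∑ p, c p • X E n p) (sub_mem ha hl) fun i j l hl => by
        rw [Matrix.sub_apply, HahnSeries.coeff_sub]
        rcases (show l < -((n + 1 : ℕ) : ℤ) ∨ l = -((n + 1 : ℕ) : ℤ) by push_cast; omega) with
          h' | rfl
        · rw [h i j l h', Vlow (n + 1) _ (sum_mem fun p _ => Submodule.smul_mem _ _
            (Submodule.subset_span ⟨n, by omega, p, rfl⟩)) i j l h', sub_zero]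
        · rw [top]
          fin_cases i <;> fin_cases j <;>
            simp [Fin.sum_univ_three, e, c, dg, sk 0 1, sk 0 2, sk 1 2]
      have h2 := add_mem this (Submodule.mem_sup_right (Submodule.mem_iSup_of_mem n hm))
      simpa using h2
  rw [hG]
  constructor
  · rw [eq_bot_iff]
    rintro a ⟨ht, ha⟩
    have mono : Monotone (W E) := fun _ _ => W_mono E
    obtain ⟨n, ha⟩ := (Submodule.mem_iSup_of_directed _ mono.directed_le).1 ha
    refine disj (n + 1) a (Submodule.span_mono ?_ ha) ht
    exact fun _ ⟨k, hk, p, h⟩ => ⟨k, by omega, p, h⟩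
  · apply le_antisymm
    · refine sup_le (fun a ha => ha.1) (iSup_le fun n => Submodule.span_le.2 ?_)
      rintro _ ⟨k, -, p, rfl⟩
      exact Xl k p
    · intro a ha
      obtain ⟨n, hn⟩ := Finite.exists_le fun q : Fin 3 × Fin 3 => (-(a q.1 q.2).order).toNat
      refine span n a ha fun i j l hl => HahnSeries.coeff_eq_zero_of_lt_order ?_
      have := hn (i, j)
      simp only at this
      omega

end Pool.Agent.Results.MP_1e3651_al.Factoring
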